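import Pool.Agent.H988R3.NA.LO1

set_option autoImplicit false
set_option maxHeartbeats 4000000

open Finset ArithmeticFunction Filter Topology

namespace Pool.Agent.H988R3.NA

open Pool.Agent.H295R3.NA

lemma GG_le (l Z : ℕ) : GG l Z ≤ Z := by
  classical
  unfold GG
  have h1 : ((Icc 1 Z).filter (fun m => Free l m)).card ≤ (Icc 1 Z).card := Finset.card_filter_le _ _
  rw [Nat.card_Icc] at h1
  have h2 : ((Icc 1 Z).filter (fun m => Free l m)).card ≤ Z := by omega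
  exact_mod_cast h2

lemma log8 : Real.log 8 ≤ 3 := by
  rw [Real.log_le_iff_le_exp (by norm_num)]
  have h1 := Real.exp_one_gt_d9
  have h2 : Real.exp 3 = Real.exp 1 ^ 3 := by
    rw [← Real.exp_nat_mul]; norm_num
  rw [h2]
  calc (8 : ℝ) ≤ 2.7182818283 ^ 3 := by norm_num
    _ ≤ Real.exp 1 ^ 3 := by gcongr

lemma core (δ : ℝ) (hδ0 : 0 < δ) (hδ1 : δ ≤ 1 / 10) (B0 : ℕ) (hB0 : 4 ≤ δ * B0) (Y0 l x : ℕ)
    (hl : l.Prime) (w : ℝ) (hw8 : w ^ 8 = x) (hw : 2 ≤ w) (hY : (Y0 : ℝ) ≤ w)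
    (hB : (B0 : ℝ) + 1 ≤ w) (hδw : 1 ≤ δ * w) (hlog : Real.log x ≤ δ * (w - 1))
    (hLL : 15 ≤ LL x) (hlogx : 1600 ≤ Real.log x) (hl2 : (l : ℝ) ^ 2 ≤ 400 * LL x)
    (hexp : Real.exp (3 / ((l : ℝ) - 1)) ≤ 1 + δ) (hBl : 2 * B0 ^ 3 < l)
    (hSV : ∀ Y : ℕ, Y0 ≤ Y → (l : ℝ) ^ 2 ≤ 500 * LL Y →
      |GG l Y - Y * EE l Y| ≤ δ * (Y * EE l Y)) :
    (1 - 10 * δ) * ((1 / 2) ^ l * x * EE l x) ≤
      Nb (fun n => padicValNat 2 n = l - 1 ∧ ¬ l ∣ ss n) x := by
  have hl2' : (2 : ℝ) ≤ l := by exact_mod_cast hl.two_le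
  have hlm : 0 < (l : ℝ) - 1 := by linarith
  have hw0 : 0 < w := by linarith
  have hx0 : (0 : ℝ) < x := by rw [← hw8]; positivity
  set E := EE l x with hE
  have hEpos : 0 < E := Real.exp_pos _
  have hlogw : Real.log x = 8 * Real.log w := by
    rw [← hw8, Real.log_pow]; norm_num
  -- bounds for the size of 2^l
  have hLLle : LL x ≤ Real.log x := by
    unfold LL
    have := Real.log_le_sub_one_of_pos (show 0 < Real.log x by linarith)
    linarith
  have hlle : (l : ℝ) ≤ Real.log x / 2 := by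
    by_contra hcon
    push Not at hcon
    have h1 : (Real.log x / 2) * (Real.log x / 2) < l * l :=
      mul_self_lt_mul_self (by linarith) hcon
    have h2 : (1600 : ℝ) * Real.log x ≤ Real.log x * Real.log x :=
      mul_le_mul_of_nonneg_right hlogx (by linarith)
    have h3 : (l : ℝ) * l ≤ 400 * Real.log x := by
      have h4 : (l : ℝ) ^ 2 = l * l := by ring
      linarith
    have h5 : (Real.log x / 2) * (Real.log x / 2) = Real.log x * Real.log x / 4 := by ring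
    linarith
  have h2l : (2 : ℝ) ^ l ≤ w ^ 4 := by
    have h1 : (2 : ℝ) ^ l = Real.exp (l * Real.log 2) := by
      rw [Real.exp_nat_mul, Real.exp_log (by norm_num)]
    have h2 : w ^ 4 = Real.exp (4 * Real.log w) := by
      have : (4 : ℝ) * Real.log w = (4 : ℕ) * Real.log w := by norm_num
      rw [this, Real.exp_nat_mul, Real.exp_log hw0]
    rw [h1, h2, Real.exp_le_exp]
    have h3 := Real.log_two_lt_d9
    have h4 : (0 : ℝ) ≤ Real.log 2 := Real.log_nonneg (by norm_num)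
    nlinarith
  set X := x / 2 ^ (l - 1) with hX
  set r : ℝ := (x : ℝ) / 2 ^ (l - 1) with hr
  have h2l1 : (2 : ℝ) ^ l = 2 * 2 ^ (l - 1) := by
    rw [← pow_succ']; congr 1; have := hl.two_le; omega
  have hp : (0 : ℝ) < 2 ^ (l - 1) := by positivity
  have hrw : 2 * w ^ 4 ≤ r := by
    rw [hr, le_div_iff₀ hp, ← hw8]
    have h1 : (2 : ℝ) * 2 ^ (l - 1) ≤ w ^ 4 := by rw [← h2l1]; exact h2l
    have h2 : w ^ 4 * (2 * 2 ^ (l - 1)) ≤ w ^ 4 * w ^ 4 :=
      mul_le_mul_of_nonneg_left h1 (pow_pos hw0 4).le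
    have h3 : w ^ 4 * w ^ 4 = w ^ 8 := by ring
    linarith
  have hXr : (X : ℝ) ≤ r := by
    rw [hX, hr]
    have := @Nat.cast_div_le ℝ _ _ _ x (2 ^ (l - 1))
    simpa using this
  have hrX : r - 1 ≤ X := by
    have h1 : x < (X + 1) * 2 ^ (l - 1) := by
      rw [hX]
      have := Nat.lt_div_mul_add (a := x) (b := 2 ^ (l - 1)) (by positivity)
      calc x < x / 2 ^ (l - 1) * 2 ^ (l - 1) + 2 ^ (l - 1) := this
        _ = (x / 2 ^ (l - 1) + 1) * 2 ^ (l - 1) := by ring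
    have h2 : (x : ℝ) < (X + 1) * 2 ^ (l - 1) := by exact_mod_cast h1
    have h3 : r < X + 1 := by
      rw [hr, div_lt_iff₀ hp]; exact h2
    linarith
  have hw4 : 16 ≤ w ^ 4 := by
    have : (2 : ℝ) ^ 4 ≤ w ^ 4 := pow_le_pow_left₀ (by norm_num) hw 4
    linarith
  have hw4w : w ≤ w ^ 4 := by
    have h1 : w * 1 ≤ w * w ^ 3 := mul_le_mul_of_nonneg_left (one_le_pow₀ (by linarith)) hw0.le
    have h2 : w * w ^ 3 = w ^ 4 := by ring
    linarith
  have hXw : w ^ 4 ≤ X := by linarith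
  have hX0 : (0 : ℝ) < X := by linarith
  have hXδ : (1 - δ) * r ≤ X := by
    have : 1 ≤ δ * r := by
      have h1 : δ * w ≤ δ * r := mul_le_mul_of_nonneg_left (by linarith) hδ0.le
      linarith
    linarith
  have hXx : (X : ℝ) ≤ x := by
    exact_mod_cast Nat.div_le_self x _
  -- Z of size at least w
  have hZ : ∀ Z : ℕ, w ≤ Z → LL x - 3 ≤ LL Z ∧ (l : ℝ) ^ 2 ≤ 500 * LL Z ∧ Y0 ≤ Z := by
    intro Z hwZ
    have h1 : Real.log x / 8 ≤ Real.log Z := by
      rw [hlogw]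
      have := Real.log_le_log hw0 hwZ
      linarith
    have h2 : LL x - Real.log 8 ≤ LL Z := by
      unfold LL
      rw [← Real.log_div (by linarith) (by norm_num)]
      exact Real.log_le_log (by linarith) h1
    have h3 := log8
    refine ⟨by linarith, by linarith, ?_⟩
    exact_mod_cast hY.trans hwZ
  have hup : ∀ Z : ℕ, w ≤ Z → GG l Z ≤ (1 + δ) ^ 2 * (Z * E) := by
    intro Z hwZ
    obtain ⟨h1, h2, h3⟩ := hZ Z hwZ
    have h4 := (abs_le.1 (hSV Z h3 h2)).2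
    have h5 : EE l Z ≤ (1 + δ) * E := by
      have : EE l Z ≤ Real.exp (3 / ((l : ℝ) - 1)) * E := by
        rw [hE]
        unfold EE
        rw [← Real.exp_add, Real.exp_le_exp, ← add_div]
        exact div_le_div_of_nonneg_right (by linarith) hlm.le
      exact this.trans (mul_le_mul_of_nonneg_right hexp hEpos.le)
    have hZ0 : (0 : ℝ) ≤ Z := by linarith
    have h6 : GG l Z ≤ (1 + δ) * (Z * EE l Z) := by linarith
    calc GG l Z ≤ (1 + δ) * (Z * EE l Z) := h6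
      _ ≤ (1 + δ) * (Z * ((1 + δ) * E)) := by
          apply mul_le_mul_of_nonneg_left _ (by linarith)
          exact mul_le_mul_of_nonneg_left h5 hZ0
      _ = (1 + δ) ^ 2 * (Z * E) := by ring
  have hlow : (1 - δ) * (X * E) ≤ GG l X := by
    obtain ⟨h1, h2, h3⟩ := hZ X (by linarith)
    have h4 := (abs_le.1 (hSV X h3 h2)).1
    have hlogX : 0 < Real.log X := Real.log_pos (by linarith)
    have h5 : E ≤ EE l X := by
      rw [hE]
      unfold EE
      rw [Real.exp_le_exp]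
      apply div_le_div_of_nonneg_right _ hlm.le
      have : LL X ≤ LL x := by
        unfold LL
        exact Real.log_le_log hlogX (Real.log_le_log hX0 hXx)
      linarith
    have h6 : (1 - δ) * (X * EE l X) ≤ GG l X := by linarith
    refine le_trans ?_ h6
    apply mul_le_mul_of_nonneg_left _ (by linarith)
    exact mul_le_mul_of_nonneg_left h5 hX0.le
  -- E is not small
  have hE1 : 1 / Real.log x ≤ E := by
    rw [hE]
    unfold EE
    have h1 : 1 / Real.log x = Real.exp (-(LL x)) := by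
      unfold LL
      rw [Real.exp_neg, Real.exp_log (by linarith), one_div]
    rw [h1, Real.exp_le_exp, neg_div]
    apply neg_le_neg
    rw [div_le_iff₀ hlm]
    nlinarith
  set T := ⌊w⌋₊ with hT
  have hTw : (T : ℝ) ≤ w := Nat.floor_le hw0.le
  have hTw' : w - 1 ≤ T := by
    have := Nat.lt_floor_add_one w
    rw [← hT] at this
    linarith
  have hBT : B0 ≤ T := by
    have : (B0 : ℝ) ≤ T := by linarith
    exact_mod_cast this
  have hTX : T ≤ X := by
    have : (T : ℝ) ≤ X := by linarith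
    exact_mod_cast this
  have hT0 : (0 : ℝ) < T := by linarith
  have hB00 : 0 < B0 := by
    rcases Nat.eq_zero_or_pos B0 with h | h
    · rw [h] at hB0; norm_num at hB0
    · exact h
  have hTE : 1 / (T : ℝ) ≤ δ * E := by
    have h1 : Real.log x ≤ δ * T := hlog.trans (mul_le_mul_of_nonneg_left hTw' hδ0.le)
    have h2 : δ * (1 / Real.log x) ≤ δ * E := mul_le_mul_of_nonneg_left hE1 hδ0.le
    refine le_trans ?_ h2
    rw [mul_one_div, div_le_div_iff₀ hT0 (by linarith)]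
    linarith
  have hhalf : GG l (X / 2) ≤ (1 + δ) ^ 2 * (X / 2 * E) := by
    have h1 : w ≤ ((X / 2 : ℕ) : ℝ) := by
      have h2 : (X : ℝ) ≤ 2 * ((X / 2 : ℕ) : ℝ) + 1 := by
        have : X ≤ 2 * (X / 2) + 1 := by omega
        exact_mod_cast this
      have h3 : 2 * w + 1 ≤ w ^ 4 := by
        have h4 : (2 : ℝ) ^ 3 ≤ w ^ 3 := pow_le_pow_left₀ (by norm_num) hw 3
        have h5 : w * 2 ^ 3 ≤ w * w ^ 3 := mul_le_mul_of_nonneg_left h4 hw0.le
        have h6 : w * w ^ 3 = w ^ 4 := by ring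
        linarith
      linarith
    refine (hup _ h1).trans ?_
    have h2 : ((X / 2 : ℕ) : ℝ) ≤ X / 2 := by
      have := @Nat.cast_div_le ℝ _ _ _ X 2
      simpa using this
    apply mul_le_mul_of_nonneg_left _ (by positivity)
    exact mul_le_mul_of_nonneg_right h2 hEpos.le
  have hsum : ∑ b ∈ Ioc B0 X, GG l (X / b ^ 2) ≤ δ * (X * E) + δ * (X * E) := by
    have hsplit : ∑ b ∈ Ioc B0 X, GG l (X / b ^ 2) =
        ∑ b ∈ Ioc B0 T, GG l (X / b ^ 2) + ∑ b ∈ Ioc T X, GG l (X / b ^ 2) := by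
      rw [Finset.sum_Ioc_consecutive _ hBT hTX]
    have hcast : ∀ b : ℕ, ((X / b ^ 2 : ℕ) : ℝ) ≤ X * ((b : ℝ) ^ 2)⁻¹ := by
      intro b
      have := @Nat.cast_div_le ℝ _ _ _ X (b ^ 2)
      rw [div_eq_mul_inv] at this
      simpa using this
    have hA : ∑ b ∈ Ioc B0 T, GG l (X / b ^ 2) ≤ δ * (X * E) := by
      have h1 : ∀ b ∈ Ioc B0 T, GG l (X / b ^ 2) ≤ 4 * (X * E) * ((b : ℝ) ^ 2)⁻¹ := by
        intro b hb
        rw [Finset.mem_Ioc] at hb
        have hb0 : (0 : ℝ) < b := by exact_mod_cast (by omega : 0 < b)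
        have hbw : (b : ℝ) ≤ w := by
          have : (b : ℝ) ≤ T := by exact_mod_cast hb.2
          linarith
        have h2 : w ≤ ((X / b ^ 2 : ℕ) : ℝ) := by
          have h3 : X < (X / b ^ 2 + 1) * b ^ 2 := by
            have := Nat.lt_div_mul_add (a := X) (b := b ^ 2) (pow_pos (by omega) 2)
            calc X < X / b ^ 2 * b ^ 2 + b ^ 2 := this
              _ = (X / b ^ 2 + 1) * b ^ 2 := by ring
          have h4 : (X : ℝ) < (((X / b ^ 2 : ℕ) : ℝ) + 1) * (b : ℝ) ^ 2 := by exact_mod_cast h3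
          have h5 : (b : ℝ) ^ 2 ≤ w ^ 2 := pow_le_pow_left₀ hb0.le hbw 2
          have h6 : (w ^ 2) * w ^ 2 < (((X / b ^ 2 : ℕ) : ℝ) + 1) * w ^ 2 := by
            calc (w ^ 2) * w ^ 2 = w ^ 4 := by ring
              _ ≤ (X : ℝ) := hXw
              _ < (((X / b ^ 2 : ℕ) : ℝ) + 1) * (b : ℝ) ^ 2 := h4
              _ ≤ (((X / b ^ 2 : ℕ) : ℝ) + 1) * w ^ 2 := by
                  apply mul_le_mul_of_nonneg_left h5
                  positivity
          have h7 : w ^ 2 < ((X / b ^ 2 : ℕ) : ℝ) + 1 := lt_of_mul_lt_mul_right h6 (by positivity)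
          nlinarith
        refine (hup _ h2).trans ?_
        have h8 : (1 + δ) ^ 2 ≤ 4 := by nlinarith
        have h9 : ((X / b ^ 2 : ℕ) : ℝ) * E ≤ X * ((b : ℝ) ^ 2)⁻¹ * E :=
          mul_le_mul_of_nonneg_right (hcast b) hEpos.le
        have h10 : 0 ≤ X * ((b : ℝ) ^ 2)⁻¹ * E := by positivity
        calc (1 + δ) ^ 2 * (((X / b ^ 2 : ℕ) : ℝ) * E) ≤ (1 + δ) ^ 2 * (X * ((b : ℝ) ^ 2)⁻¹ * E) :=
              mul_le_mul_of_nonneg_left h9 (by positivity)
          _ ≤ 4 * (X * ((b : ℝ) ^ 2)⁻¹ * E) := mul_le_mul_of_nonneg_right h8 h10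
          _ = 4 * (X * E) * ((b : ℝ) ^ 2)⁻¹ := by ring
      refine (Finset.sum_le_sum h1).trans ?_
      rw [← Finset.mul_sum]
      have h2 := @sum_Ioc_inv_sq_le_sub ℝ _ _ _ B0 T (by omega) hBT
      have h3 : ∑ i ∈ Ioc B0 T, ((i : ℝ) ^ 2)⁻¹ ≤ (B0 : ℝ)⁻¹ := by
        have : (0 : ℝ) ≤ (T : ℝ)⁻¹ := by positivity
        linarith
      have hB0' : (0 : ℝ) < B0 := by exact_mod_cast hB00
      have h4 : 4 * (B0 : ℝ)⁻¹ ≤ δ := by
        rw [← div_eq_mul_inv, div_le_iff₀ hB0']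
        exact hB0
      have h5 : 0 ≤ X * E := by positivity
      calc 4 * (X * E) * ∑ i ∈ Ioc B0 T, ((i : ℝ) ^ 2)⁻¹ ≤ 4 * (X * E) * (B0 : ℝ)⁻¹ :=
            mul_le_mul_of_nonneg_left h3 (by positivity)
        _ = (4 * (B0 : ℝ)⁻¹) * (X * E) := by ring
        _ ≤ δ * (X * E) := mul_le_mul_of_nonneg_right h4 h5
    have hBd : ∑ b ∈ Ioc T X, GG l (X / b ^ 2) ≤ δ * (X * E) := by
      have h1 : ∀ b ∈ Ioc T X, GG l (X / b ^ 2) ≤ X * ((b : ℝ) ^ 2)⁻¹ :=
        fun b _ => (GG_le _ _).trans (hcast b)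
      refine (Finset.sum_le_sum h1).trans ?_
      rw [← Finset.mul_sum]
      have hTn : T ≠ 0 := by
        intro h
        rw [h] at hT0
        simp at hT0
      have h2 := @sum_Ioc_inv_sq_le_sub ℝ _ _ _ T X hTn hTX
      have h3 : ∑ i ∈ Ioc T X, ((i : ℝ) ^ 2)⁻¹ ≤ 1 / (T : ℝ) := by
        have : (0 : ℝ) ≤ (X : ℝ)⁻¹ := by positivity
        rw [one_div]
        linarith
      calc (X : ℝ) * ∑ i ∈ Ioc T X, ((i : ℝ) ^ 2)⁻¹ ≤ X * (δ * E) :=
            mul_le_mul_of_nonneg_left (h3.trans hTE) hX0.le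
        _ = δ * (X * E) := by ring
    rw [hsplit]
    linarith
  have hcomb := comb (x := x) hl hBl
  rw [← hX] at hcomb
  have hr0 : 0 < r := by rw [hr]; positivity
  have hXE : 0 < X * E := by positivity
  have hmain : (1 / 2 - 405 / 100 * δ) * (X * E) ≤
      Nb (fun n => padicValNat 2 n = l - 1 ∧ ¬ l ∣ ss n) x := by
    have h1 : (1 - δ) * (X * E) - (1 + δ) ^ 2 * (X / 2 * E) - (δ * (X * E) + δ * (X * E)) ≤
        Nb (fun n => padicValNat 2 n = l - 1 ∧ ¬ l ∣ ss n) x := by linarith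
    refine le_trans ?_ h1
    have h2 : (1 - δ) * (X * E) - (1 + δ) ^ 2 * (X / 2 * E) - (δ * (X * E) + δ * (X * E)) =
        (1 - δ - (1 + δ) ^ 2 / 2 - 2 * δ) * (X * E) := by ring
    rw [h2]
    apply mul_le_mul_of_nonneg_right _ hXE.le
    nlinarith
  refine le_trans ?_ hmain
  have h3 : (1 / 2 : ℝ) ^ l * x = r / 2 := by
    rw [hr, one_div, inv_pow, h2l1]
    field_simp
  rw [h3]
  have h4 : (1 / 2 - 405 / 100 * δ) * ((1 - δ) * r * E) ≤ (1 / 2 - 405 / 100 * δ) * (X * E) := by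
    apply mul_le_mul_of_nonneg_left _ (by linarith)
    exact mul_le_mul_of_nonneg_right hXδ hEpos.le
  refine le_trans ?_ h4
  have h5 : 0 < r * E := by positivity
  have h6 : (1 / 2 - 405 / 100 * δ) * ((1 - δ) * r * E) =
      ((1 / 2 - 405 / 100 * δ) * (1 - δ)) * (r * E) := by ring
  have h7 : (1 - 10 * δ) * (r / 2 * E) = ((1 - 10 * δ) / 2) * (r * E) := by ring
  rw [h6, h7]
  apply mul_le_mul_of_nonneg_right _ h5.le
  nlinarith

theorem taskLO : TaskLO := by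
  intro hSV ε hε
  set δ : ℝ := min ε 1 / 10 with hδ
  have hδ0 : 0 < δ := by rw [hδ]; have := lt_min hε one_pos; linarith
  have hδ1 : δ ≤ 1 / 10 := by rw [hδ]; have := min_le_right ε 1; linarith
  have hδε : 10 * δ ≤ ε := by rw [hδ]; have := min_le_left ε 1; linarith
  obtain ⟨l1, Y0, hSV⟩ := hSV δ hδ0
  obtain ⟨B0, hB0⟩ : ∃ B0 : ℕ, 4 ≤ δ * B0 := by
    refine ⟨⌈4 / δ⌉₊, ?_⟩
    have := Nat.le_ceil (4 / δ)
    rw [div_le_iff₀ hδ0] at this
    linarith
  have hwt : Tendsto (fun x : ℕ => (x : ℝ) ^ (1 / 8 : ℝ)) atTop atTop :=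
    (tendsto_rpow_atTop (by norm_num)).comp tendsto_natCast_atTop_atTop
  have hlt : Tendsto (fun x : ℕ => Real.log (x : ℝ)) atTop atTop :=
    Real.tendsto_log_atTop.comp tendsto_natCast_atTop_atTop
  have hLt : Tendsto (fun x : ℕ => LL x) atTop atTop := Real.tendsto_log_atTop.comp hlt
  have hlo : ∀ᶠ x : ℕ in atTop, Real.log (x : ℝ) ≤ δ / 2 * (x : ℝ) ^ (1 / 8 : ℝ) := by
    have h1 := (isLittleO_log_rpow_atTop (r := (1 / 8 : ℝ)) (by norm_num)).def (half_pos hδ0)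
    have h2 := tendsto_natCast_atTop_atTop.eventually h1
    filter_upwards [h2, eventually_ge_atTop 1] with x hx hx1
    rw [Real.norm_eq_abs, Real.norm_eq_abs, abs_of_nonneg (by positivity : (0 : ℝ) ≤ (x : ℝ) ^ (1 / 8 : ℝ))] at hx
    exact (le_abs_self _).trans hx
  have hev := (((hwt.eventually_ge_atTop (max (max (Y0 : ℝ) (B0 + 1)) (max 2 (1 / δ)))).and
    (hlt.eventually_ge_atTop 1600)).and (hLt.eventually_ge_atTop 15)).and hlo
  obtain ⟨x0, hx0⟩ := eventually_atTop.1 hev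
  refine ⟨max (max l1 (2 * B0 ^ 3 + 1)) (⌈6 / δ⌉₊ + 2), x0, ?_⟩
  intro x hx l hl hl0 hl2
  obtain ⟨⟨⟨h1, h2⟩, h3⟩, h4⟩ := hx0 x hx
  set w : ℝ := (x : ℝ) ^ (1 / 8 : ℝ) with hw
  have hY : (Y0 : ℝ) ≤ w := ((le_max_left _ _).trans (le_max_left _ _)).trans h1
  have hB : (B0 : ℝ) + 1 ≤ w := ((le_max_right _ _).trans (le_max_left _ _)).trans h1
  have hw2 : (2 : ℝ) ≤ w := ((le_max_left _ _).trans (le_max_right _ _)).trans h1
  have hwδ : 1 / δ ≤ w := ((le_max_right _ _).trans (le_max_right _ _)).trans h1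
  have hδw : 1 ≤ δ * w := by
    rw [div_le_iff₀ hδ0] at hwδ
    linarith
  have hw8 : w ^ 8 = x := by
    rw [hw, ← Real.rpow_natCast, ← Real.rpow_mul (by positivity)]
    norm_num
  have hlb1 : l1 ≤ l := ((le_max_left _ _).trans (le_max_left _ _)).trans hl0
  have hlb2 : 2 * B0 ^ 3 + 1 ≤ l := ((le_max_right _ _).trans (le_max_left _ _)).trans hl0
  have hlb3 : ⌈6 / δ⌉₊ + 2 ≤ l := (le_max_right _ _).trans hl0
  have hexp : Real.exp (3 / ((l : ℝ) - 1)) ≤ 1 + δ := by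
    have g1 : 6 / δ + 2 ≤ l := by
      have := Nat.le_ceil (6 / δ)
      have g2 : ((⌈6 / δ⌉₊ + 2 : ℕ) : ℝ) ≤ l := by exact_mod_cast hlb3
      push_cast at g2
      linarith
    have g2 : 0 < (l : ℝ) - 1 := by
      have : 0 < 6 / δ := by positivity
      linarith
    have g3 : 3 / ((l : ℝ) - 1) ≤ δ / 2 := by
      rw [div_le_iff₀ g2]
      have g4 : 6 / δ ≤ (l : ℝ) - 1 := by linarith
      rw [div_le_iff₀ hδ0] at g4
      linarith
    calc Real.exp (3 / ((l : ℝ) - 1)) ≤ Real.exp (δ / 2) := Real.exp_le_exp.2 g3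
      _ ≤ 1 / (1 - δ / 2) := Real.exp_bound_div_one_sub_of_interval (by linarith) (by linarith)
      _ ≤ 1 + δ := by
          rw [div_le_iff₀ (by linarith)]
          nlinarith
  have key := core δ hδ0 hδ1 B0 hB0 Y0 l x hl w hw8 hw2 hY hB hδw (by nlinarith) h3 h2 hl2 hexp
    (by omega) (fun Y hY0 hYl => hSV Y hY0 l hl hlb1 hYl)
  refine le_trans ?_ key
  apply mul_le_mul_of_nonneg_right (by linarith)
  unfold EE
  positivity

end Pool.Agent.H988R3.NA
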