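import Pool.Agent.H295R3.NA.Stmts

set_option autoImplicit false

open Finset ArithmeticFunction Filter Topology

namespace Pool.Agent.H988R3.NA

open Pool.Agent.H295R3.NA

lemma ss_eq (n : ℕ) : ss n = sigma 1 n := by
  unfold ss
  rw [sigma_one_apply]

lemma ss_pos {n : ℕ} (hn : n ≠ 0) : 0 < ss n := by
  unfold ss
  have : n ∈ n.divisors := Nat.mem_divisors_self n hn
  exact Finset.sum_pos (fun d hd => Nat.pos_of_mem_divisors hd) ⟨n, this⟩

/-- a free number with `l ∣ σ` is divisible by a large square -/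
lemma exists_sq {l m : ℕ} (hl : l.Prime) (hm : m ≠ 0) (hfree : Free l m) (h : l ∣ ss m) :
    ∃ b : ℕ, b ^ 2 ∣ m ∧ l ≤ 2 * b ^ 3 := by
  rw [ss_eq, sigma_eq_prod_primeFactors_sum_range_factorization_pow_mul hm] at h
  rw [hl.prime.dvd_finsetProd_iff] at h
  obtain ⟨q, hq, hd⟩ := h
  have hqp : q.Prime := Nat.prime_of_mem_primeFactors hq
  have hqm : q ∣ m := Nat.dvd_of_mem_primeFactors hq
  set a := m.factorization q with ha
  have ha1 : 1 ≤ a := by
    rw [ha]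
    exact (hqp.dvd_iff_one_le_factorization hm).1 hqm
  have ha2 : a ≠ 1 := by
    intro h1
    rw [h1] at hd
    apply hfree q hqp _ hqm
    simpa [Finset.sum_range_succ, add_comm] using hd
  have hpow : q ^ a ∣ m := Nat.ordProj_dvd m q
  refine ⟨q ^ (a / 2), ?_, ?_⟩
  · rw [← pow_mul]
    exact (pow_dvd_pow q (by omega)).trans hpow
  · have h1 : l ≤ ∑ i ∈ range (a + 1), q ^ (i * 1) := by
      apply Nat.le_of_dvd _ hd
      apply Finset.sum_pos
      · intro i _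
        exact pow_pos hqp.pos _
      · exact ⟨0, by simp⟩
    have h2 : ∑ i ∈ range (a + 1), q ^ (i * 1) ≤ 2 * q ^ a := by
      rw [Finset.sum_range_succ]
      simp only [mul_one]
      have := Nat.geomSum_lt (m := q) (n := a) (s := range a) hqp.two_le
        (fun k hk => Finset.mem_range.1 hk)
      omega
    have h3 : q ^ a ≤ (q ^ (a / 2)) ^ 3 := by
      rw [← pow_mul]
      exact Nat.pow_le_pow_right hqp.pos (by omega)
    omega

lemma not_dvd_two_pow {l : ℕ} (hl : l.Prime) : ¬ l ∣ 2 ^ l - 1 := by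
  intro h
  have := Fact.mk hl
  have h1 : ((2 ^ l - 1 : ℕ) : ZMod l) = 0 := (ZMod.natCast_eq_zero_iff _ _).2 h
  rw [Nat.cast_sub (Nat.one_le_two_pow)] at h1
  push_cast at h1
  rw [ZMod.pow_card] at h1
  have h2 : (2 : ZMod l) - 1 = 1 := by norm_num
  rw [h2] at h1
  exact one_ne_zero h1

/-- the numbers `2^(l-1) m` -/
lemma good_of {l m : ℕ} (hl : l.Prime) (hm : m ≠ 0) (hodd : ¬ 2 ∣ m) (h : ¬ l ∣ ss m) :
    padicValNat 2 (2 ^ (l - 1) * m) = l - 1 ∧ ¬ l ∣ ss (2 ^ (l - 1) * m) := by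
  constructor
  · rw [padicValNat.mul (by positivity) hm, padicValNat.prime_pow, padicValNat.eq_zero_of_not_dvd hodd,
      add_zero]
  · rw [ss_eq, isMultiplicative_sigma.map_mul_of_coprime, sigma_one_apply_prime_pow Nat.prime_two]
    · intro hd
      rcases (hl.dvd_mul).1 hd with h1 | h1
      · have e : ∑ k ∈ range (l - 1 + 1), 2 ^ k = 2 ^ l - 1 := by
          rw [Nat.sub_add_cancel hl.one_le]
          have := Nat.geomSum_eq (m := 2) (le_refl 2) l
          simpa using this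
        rw [e] at h1
        exact not_dvd_two_pow hl h1
      · rw [← ss_eq] at h1
        exact h h1
    · apply Nat.Coprime.pow_left
      exact (Nat.coprime_primes Nat.prime_two Nat.prime_two |> fun _ =>
        (Nat.Prime.coprime_iff_not_dvd Nat.prime_two).2 hodd)

open Classical in
lemma card_div (l Y d : ℕ) (hd : 1 ≤ d) :
    (((Icc 1 Y).filter (fun m => Free l m ∧ d ∣ m)).card : ℝ) ≤ GG l (Y / d) := by
  unfold GG
  norm_cast
  apply Finset.card_le_card_of_injOn (fun m => m / d)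
  · intro m hm
    rw [Finset.mem_coe, Finset.mem_filter, Finset.mem_Icc] at hm
    obtain ⟨⟨h1, h2⟩, h3, h4⟩ := hm
    rw [Finset.mem_coe, Finset.mem_filter, Finset.mem_Icc]
    refine ⟨⟨?_, Nat.div_le_div_right h2⟩, ?_⟩
    · exact Nat.div_pos (Nat.le_of_dvd (by omega) h4) (by omega)
    · intro q hq hlq hqd
      exact h3 q hq hlq (hqd.trans (Nat.div_dvd_of_dvd h4))
  · intro m hm m' hm' h
    rw [Finset.mem_coe, Finset.mem_filter] at hm hm'
    simp only at h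
    rw [← Nat.div_mul_cancel hm.2.2, ← Nat.div_mul_cancel hm'.2.2, h]

open Classical in
lemma le_Nb (P : ℕ → Prop) (x : ℕ) (S : Finset ℕ) (f : ℕ → ℕ)
    (h : ∀ m ∈ S, 1 ≤ f m ∧ f m ≤ x ∧ P (f m)) (inj : Set.InjOn f S) : (S.card : ℝ) ≤ Nb P x := by
  unfold Nb
  norm_cast
  apply Finset.card_le_card_of_injOn f _ inj
  intro m hm
  obtain ⟨h1, h2, h3⟩ := h m hm
  exact Finset.mem_coe.2 (Finset.mem_filter.2 ⟨Finset.mem_Icc.2 ⟨h1, h2⟩, h3⟩)

open Classical in
lemma comb {l x B : ℕ} (hl : l.Prime) (hB : 2 * B ^ 3 < l) :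
    GG l (x / 2 ^ (l - 1)) ≤ Nb (fun n => padicValNat 2 n = l - 1 ∧ ¬ l ∣ ss n) x +
      GG l (x / 2 ^ (l - 1) / 2) +
      ∑ b ∈ Ioc B (x / 2 ^ (l - 1)), GG l (x / 2 ^ (l - 1) / b ^ 2) := by
  set X := x / 2 ^ (l - 1) with hX
  have h1 : (Icc 1 X).filter (fun m => Free l m) ⊆
      (((Icc 1 X).filter (fun m => ¬ 2 ∣ m ∧ ¬ l ∣ ss m)) ∪
        ((Icc 1 X).filter (fun m => Free l m ∧ 2 ∣ m))) ∪
      (Ioc B X).biUnion (fun b => (Icc 1 X).filter (fun m => Free l m ∧ b ^ 2 ∣ m)) := by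
    intro m hm
    rw [Finset.mem_filter, Finset.mem_Icc] at hm
    obtain ⟨⟨hm1, hm2⟩, hf⟩ := hm
    rw [Finset.mem_union, Finset.mem_union, Finset.mem_filter, Finset.mem_filter,
      Finset.mem_biUnion, Finset.mem_Icc]
    by_cases h2 : 2 ∣ m
    · exact Or.inl (Or.inr ⟨⟨hm1, hm2⟩, hf, h2⟩)
    · by_cases h3 : l ∣ ss m
      · right
        obtain ⟨b, hb1, hb2⟩ := exists_sq hl (by omega) hf h3
        have hBb : B < b := by
          by_contra hcon
          have : b ^ 3 ≤ B ^ 3 := Nat.pow_le_pow_left (by omega) 3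
          omega
        refine ⟨b, ?_, ?_⟩
        · rw [Finset.mem_Ioc]
          refine ⟨hBb, ?_⟩
          have := Nat.le_of_dvd (by omega) hb1
          nlinarith
        · rw [Finset.mem_filter, Finset.mem_Icc]
          exact ⟨⟨hm1, hm2⟩, hf, hb1⟩
      · exact Or.inl (Or.inl ⟨⟨hm1, hm2⟩, h2, h3⟩)
  have h2 : (((Icc 1 X).filter (fun m => Free l m)).card : ℝ) ≤
      ((Icc 1 X).filter (fun m => ¬ 2 ∣ m ∧ ¬ l ∣ ss m)).card +
      ((Icc 1 X).filter (fun m => Free l m ∧ 2 ∣ m)).card +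
      ∑ b ∈ Ioc B X, (((Icc 1 X).filter (fun m => Free l m ∧ b ^ 2 ∣ m)).card : ℝ) := by
    have h3 := Finset.card_le_card h1
    have h4 := Finset.card_union_le (((Icc 1 X).filter (fun m => ¬ 2 ∣ m ∧ ¬ l ∣ ss m)) ∪
        ((Icc 1 X).filter (fun m => Free l m ∧ 2 ∣ m)))
      ((Ioc B X).biUnion (fun b => (Icc 1 X).filter (fun m => Free l m ∧ b ^ 2 ∣ m)))
    have h5 := Finset.card_union_le ((Icc 1 X).filter (fun m => ¬ 2 ∣ m ∧ ¬ l ∣ ss m))
        ((Icc 1 X).filter (fun m => Free l m ∧ 2 ∣ m))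
    have h6 : ((Ioc B X).biUnion (fun b => (Icc 1 X).filter (fun m => Free l m ∧ b ^ 2 ∣ m))).card ≤
        ∑ b ∈ Ioc B X, ((Icc 1 X).filter (fun m => Free l m ∧ b ^ 2 ∣ m)).card :=
      Finset.card_biUnion_le
    have h7 : ((Icc 1 X).filter (fun m => Free l m)).card ≤
      ((Icc 1 X).filter (fun m => ¬ 2 ∣ m ∧ ¬ l ∣ ss m)).card +
      ((Icc 1 X).filter (fun m => Free l m ∧ 2 ∣ m)).card +
      ∑ b ∈ Ioc B X, ((Icc 1 X).filter (fun m => Free l m ∧ b ^ 2 ∣ m)).card := by omega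
    exact_mod_cast h7
  have h8 : (((Icc 1 X).filter (fun m => ¬ 2 ∣ m ∧ ¬ l ∣ ss m)).card : ℝ) ≤
      Nb (fun n => padicValNat 2 n = l - 1 ∧ ¬ l ∣ ss n) x := by
    apply le_Nb _ _ _ (fun m => 2 ^ (l - 1) * m)
    · intro m hm
      rw [Finset.mem_filter, Finset.mem_Icc] at hm
      obtain ⟨⟨g1, g2⟩, g3, g4⟩ := hm
      have g5 := good_of hl (by omega) g3 g4
      have g6 : 1 ≤ 2 ^ (l - 1) * m := Nat.mul_pos (by positivity) (by omega)
      have g7 : 2 ^ (l - 1) * m ≤ x := by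
        calc 2 ^ (l - 1) * m ≤ 2 ^ (l - 1) * X := Nat.mul_le_mul_left _ g2
          _ ≤ x := Nat.mul_div_le x _
      exact ⟨g6, g7, g5⟩
    · intro m _ m' _ h
      simp only at h
      exact Nat.eq_of_mul_eq_mul_left (by positivity) h
  have h9 := card_div l X 2 (by norm_num)
  have h10 : ∑ b ∈ Ioc B X, (((Icc 1 X).filter (fun m => Free l m ∧ b ^ 2 ∣ m)).card : ℝ) ≤
      ∑ b ∈ Ioc B X, GG l (X / b ^ 2) := by
    apply Finset.sum_le_sum
    intro b hb
    rw [Finset.mem_Ioc] at hb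
    exact card_div l X (b ^ 2) (Nat.one_le_pow _ _ (by omega))
  have h11 : GG l X = (((Icc 1 X).filter (fun m => Free l m)).card : ℝ) := rfl
  rw [h11]
  linarith

end Pool.Agent.H988R3.NA
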